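import Pool.Agent.QPI.DefsF

/-!
# Squad QPI, row F_RED: the reduced exponents
-/

set_option autoImplicit false

namespace Pool.Agent.QPI.H77

theorem walk_bound {N m B : ℕ} (e : Fin N → Fin m → ℕ) (j : Fin m) {u v : Fin N}
    (w : (closeGraph e B).Walk u v) : e u j - e v j ≤ w.length * B := by
  induction w with
  | nil => simp
  | @cons u v w h q ih =>
    rw [SimpleGraph.Walk.length_cons, add_mul, one_mul]
    have h1 := (h.2 j).1
    omega

theorem mem_cluster {N m : ℕ} (e : Fin N → Fin m → ℕ) (B : ℕ) (i i' : Fin N) :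
    i' ∈ cluster e B i ↔ (closeGraph e B).Reachable i i' := by
  classical
  simp [cluster]

theorem f_red : RedStmt := by
  classical
  intro N m B k e i0 hk i j
  have : Nonempty {i // i ∈ cluster e B i0} := ⟨i⟩
  obtain ⟨i1, h1⟩ := exists_eq_ciInf_of_finite
    (f := fun i' : {i // i ∈ cluster e B i0} => e i' j)
  unfold red
  rw [← h1]
  have hi := (mem_cluster e B i0 i).1 i.2
  have hi1 := (mem_cluster e B i0 i1).1 i1.2
  obtain ⟨w⟩ := hi.symm.trans hi1
  have h2 := walk_bound e j w.toPath.1
  have h3 : w.toPath.1.support.toFinset ⊆ cluster e B i0 := by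
    intro x hx
    rw [List.mem_toFinset] at hx
    exact (mem_cluster e B i0 x).2 (hi.trans ⟨w.toPath.1.takeUntil x hx⟩)
  have h4 := Finset.card_le_card h3
  rw [List.toFinset_card_of_nodup w.toPath.2.support_nodup,
    SimpleGraph.Walk.length_support] at h4
  exact h2.trans (Nat.mul_le_mul_right _ (by omega))

end Pool.Agent.QPI.H77
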